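import Pool.Agent.Lib.MP_a78abf_an.Defs
import Pool.Agent.Lib.MP_a78abf_an.Proof

namespace Pool.Agent.Results.MP_a78abf_an.Plateau

open Pool.Agent.Lib.MP_a78abf_an

theorem result (c : Bool) (a b : ℝ) (hb0 : 0 ≤ b) (hb : b ≤ 1 / 2) (ha1 : -1 ≤ a)
    (ha2 : a ≤ -1 / (b + 1)) : ∃ h : ℝ, HasEntropy c a b h ∧ HasEntropy c (-1) b h :=
  plateau c hb0 (by linarith) ha1 ha2

end Pool.Agent.Results.MP_a78abf_an.Plateau
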